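import Pool.Agent.Helper20.Loc.Main

set_option autoImplicit false

namespace Pool.Agent.Results.MP_023469_lc.ApproximateDense

open Pool.Agent.Helper20.Spectra

/-- Let `D` be a rudimentary set with at least `x ^ δ` elements below every large `x`. For every
`ε > 0` there is a spectrum `U ⊆ D` such that all spectra are rudimentary if and only if some
rudimentary set agrees with `U` on `D` up to a fraction `O(x ^ (-ε))` of the elements of `D` below
`x`, for every `x`. -/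
theorem result :
    ∀ D : Set ℕ, IsRudimentary D → ∀ δ : ℝ, 0 < δ →
      (∃ x₀ : ℕ, ∀ x : ℕ, x₀ ≤ x →
        (x : ℝ) ^ δ ≤ (({m : ℕ | m ∈ D ∧ m < x} : Set ℕ).ncard : ℝ)) →
      ∀ ε : ℝ, 0 < ε → ∃ U : Set ℕ, U ⊆ D ∧ IsSpectrum U ∧
        ((∀ A : Set ℕ, IsSpectrum A → IsRudimentary A) ↔
          ∃ R : Set ℕ, IsRudimentary R ∧ ∃ C : ℝ, ∀ x : ℕ, 1 ≤ x →
            (({m : ℕ | (m ∈ D ∧ m < x) ∧ ¬ (m ∈ U ↔ m ∈ R)} : Set ℕ).ncard : ℝ) ≤
              C * (({m : ℕ | m ∈ D ∧ m < x} : Set ℕ).ncard : ℝ) * (x : ℝ) ^ (-ε)) := by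
  rintro D hD δ hδ ⟨x₀, hd⟩ ε hε
  exact approx_on hD hδ hd hε

end Pool.Agent.Results.MP_023469_lc.ApproximateDense
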