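import Pool.Agent.Helper20.Spectra.Universal
import Pool.Agent.Helper20.Spectra.Approx

set_option autoImplicit false

namespace Pool.Agent.Helper20.Old.ApproximateForm

open Pool.Agent.Helper20.Spectra

/-- For every `ε > 0` there is a spectrum `U` such that all spectra are rudimentary if and only
if some rudimentary set agrees with `U` below `x` up to `O(x ^ (1 - ε))` exceptions. -/
theorem result :
    ∀ ε : ℝ, 0 < ε → ∃ U : Set ℕ, IsSpectrum U ∧
      ((∀ A : Set ℕ, IsSpectrum A → IsRudimentary A) ↔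
        ∃ R : Set ℕ, IsRudimentary R ∧ ∃ C : ℝ, ∀ x : ℕ, 1 ≤ x →
          (({m : ℕ | m < x ∧ ¬ (m ∈ U ↔ m ∈ R)} : Set ℕ).ncard : ℝ) ≤
            C * (x : ℝ) ^ (1 - ε)) := by
  intro ε hε
  obtain ⟨c, hc, hexp⟩ := exists_exponent hε
  obtain ⟨Θ₀, hΘ₀⟩ := exists_universal_blocks
  have hU := stretch_isSpectrum (squareSizes_isSpectrum Θ₀) c
  refine ⟨stretch c (squareSizes Θ₀), hU, ?_, ?_⟩
  · intro h
    refine ⟨_, h _ hU, 0, fun x _ => ?_⟩
    simp
  · rintro ⟨R, hR, C, hC⟩
    have hT : IsRudimentary (squareSizes Θ₀) := by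
      classical
      obtain ⟨K, hK⟩ := exists_nat_ge (2 * |C|)
      have hblock : ∀ n, 1 ≤ n → ∀ s : Finset ℕ, (∀ w ∈ s, w < n ^ c ∧
          ¬ (n ^ (c + 1) + w ∈ stretch c (squareSizes Θ₀) ↔ n ^ (c + 1) + w ∈ R)) →
          s.card ≤ K * n ^ (c - 1) := by
        intro n hn s hs
        have hn1 : n ^ c ≤ n ^ (c + 1) := Nat.pow_le_pow_right hn (by omega)
        have hpos : 1 ≤ n ^ (c + 1) := Nat.one_le_pow _ _ hn
        have h1 := hC (2 * n ^ (c + 1)) (by omega)
        have hfin : ({m : ℕ | m < 2 * n ^ (c + 1) ∧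
            ¬ (m ∈ stretch c (squareSizes Θ₀) ↔ m ∈ R)} : Set ℕ).Finite :=
          (Set.finite_Iio (2 * n ^ (c + 1))).subset (fun m hm => hm.1)
        have h2 : s.card ≤ ({m : ℕ | m < 2 * n ^ (c + 1) ∧
            ¬ (m ∈ stretch c (squareSizes Θ₀) ↔ m ∈ R)} : Set ℕ).ncard := by
          rw [← Set.ncard_coe_finset s]
          refine Set.ncard_le_ncard_of_injOn (fun w => n ^ (c + 1) + w) ?_ ?_ hfin
          · intro w hw
            obtain ⟨h3, h4⟩ := hs w hw
            refine ⟨?_, h4⟩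
            omega
          · intro w _ w' _ h
            beta_reduce at h
            omega
        have h3 : (s.card : ℝ) ≤ (K * n ^ (c - 1) : ℕ) := by
          calc (s.card : ℝ) ≤ _ := Nat.cast_le.2 h2
            _ ≤ C * ((2 * n ^ (c + 1) : ℕ) : ℝ) ^ (1 - ε) := h1
            _ ≤ |C| * ((2 * n ^ (c + 1) : ℕ) : ℝ) ^ (1 - ε) :=
                mul_le_mul_of_nonneg_right (le_abs_self C) (by positivity)
            _ ≤ |C| * (2 * (n : ℝ) ^ (c - 1)) :=
                mul_le_mul_of_nonneg_left (hexp n hn) (abs_nonneg C)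
            _ = 2 * |C| * (n : ℝ) ^ (c - 1) := by ring
            _ ≤ K * (n : ℝ) ^ (c - 1) := mul_le_mul_of_nonneg_right hK (by positivity)
            _ = (K * n ^ (c - 1) : ℕ) := by push_cast; ring
        exact_mod_cast h3
      refine isRudimentary_of_approx (K := K) hc hR ?_ ?_
      · intro n hn hA
        refine ⟨{w ∈ Finset.range (n ^ c) | n ^ (c + 1) + w ∉ R}, ?_, ?_⟩
        · intro w hw hwR
          exact Finset.mem_filter.2 ⟨Finset.mem_range.2 hw, hwR⟩
        · refine hblock n hn _ (fun w hw => ?_)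
          rw [Finset.mem_filter, Finset.mem_range] at hw
          refine ⟨hw.1, fun h => hw.2 (h.1 ?_)⟩
          exact (mem_stretch hn hw.1).2 hA
      · intro n hn hA
        refine ⟨{w ∈ Finset.range (n ^ c) | n ^ (c + 1) + w ∈ R}, ?_, ?_⟩
        · intro w hw hwR
          exact Finset.mem_filter.2 ⟨Finset.mem_range.2 hw, hwR⟩
        · refine hblock n hn _ (fun w hw => ?_)
          rw [Finset.mem_filter, Finset.mem_range] at hw
          refine ⟨hw.1, fun h => hA ?_⟩
          exact (mem_stretch hn hw.1).1 (h.2 hw.2)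
    intro A hA
    obtain ⟨q, rfl⟩ := hΘ₀ A hA
    exact hT.preimage q

end Pool.Agent.Helper20.Old.ApproximateForm
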