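import Pool.Agent.Helper20.Iface.Main

set_option autoImplicit false

namespace Pool.Agent.Helper20.Old.BoundedWidth

open Pool.Agent.Helper20.Spectra

/-- The sets in the levels `InLevel c k` (bounded formulas with interface `c` and depth `k`) are
exactly the rudimentary sets, but no level contains all spectra. -/
theorem result : (∀ A : Set ℕ, IsRudimentary A ↔ ∃ c k, InLevel c k A) ∧
    ∀ c k, ∃ A : Set ℕ, IsSpectrum A ∧ ¬ InLevel c k A :=
  iface_main

end Pool.Agent.Helper20.Old.BoundedWidth
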