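import Pool.Agent.Helper20.Sparse.Main

set_option autoImplicit false

namespace Pool.Agent.Results.MP_023469_lc.SparseWords

open Pool.Agent.Helper20.Spectra

/-- Words of length `n` are subsets of `{0, …, n - 1}` (the positions of the ones).  Let `W n` be
arbitrary nonempty sets of words of length `n` which contain with `P` all words with at most as
many ones as `P` and without ones to the right of the last one of `P`.  The generalised spectra on
these words are exactly the properties definable by bounded formulas `ψ(n, P)` if and only if there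
are at most `(n + 1) ^ C` words in `W n`, for some `C`, and every spectrum is rudimentary. -/
theorem result (W : ℕ → Finset (Finset ℕ))
    (hW : ∀ n, 1 ≤ n → (W n).Nonempty ∧ ∀ P ∈ W n, (∀ i ∈ P, i < n) ∧
      ∀ Q : Finset ℕ, Q.card ≤ P.card → (∀ i ∈ Q, ∃ j ∈ P, i ≤ j) → Q ∈ W n) :
    (∀ T : ℕ → Finset ℕ → Prop, GenOn W T ↔ BddOn W T) ↔
      ((∃ C : ℕ, ∀ n, 1 ≤ n → (W n).card ≤ (n + 1) ^ C) ∧
        ∀ A : Set ℕ, IsSpectrum A ↔ (IsRudimentary A ∧ 0 ∉ A)) :=
  sparse_main W hW

end Pool.Agent.Results.MP_023469_lc.SparseWords
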