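import Pool.Agent.Helper20.Spectra.UIFin

set_option autoImplicit false

namespace Pool.Agent.Helper20.Old.UnitInterval

open Pool.Agent.Helper20.Spectra

lemma preimage_isSpectrum {A : Set ℕ} (hA : IsSpectrum A) (q : Polynomial ℕ) :
    IsSpectrum {n : ℕ | 1 ≤ n ∧ q.eval n ∈ A} := by
  obtain ⟨k, Θ, hΘ⟩ := spectrum_blocks hA
  have h1 := squareSizes_preimage_isSpectrum Θ (q ^ (k + 1))
  convert h1 using 1
  ext n
  simp only [Set.mem_ofPred_eq, Polynomial.eval_pow]
  apply and_congr_right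
  intro _
  rcases Nat.eq_zero_or_pos (q.eval n) with h0 | h0
  · rw [h0, zero_pow (by omega)]
    constructor
    · intro h2; exact absurd h2 hA.zero_notMem
    · intro h2; exact absurd h2.1 (by omega)
  · exact hΘ _ h0

lemma eval_pos {q : Polynomial ℕ} (hq : q ≠ 0) {n : ℕ} (hn : 1 ≤ n) : 1 ≤ q.eval n := by
  rw [Polynomial.eval_eq_sum_range]
  have h1 : 1 ≤ q.coeff q.natDegree * n ^ q.natDegree := by
    have h2 : q.coeff q.natDegree ≠ 0 := by
      rw [Polynomial.coeff_natDegree]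
      exact Polynomial.leadingCoeff_ne_zero.2 hq
    exact Nat.mul_pos (Nat.pos_of_ne_zero h2) (Nat.pow_pos hn)
  exact h1.trans (Finset.single_le_sum (f := fun i => q.coeff i * n ^ i)
    (fun i _ => Nat.zero_le _) (Finset.mem_range.2 (Nat.lt_succ_self _)))

lemma universal : ∃ φ₀ : FirstOrder.Language.graph.Sentence, ∀ A : Set ℕ, IsSpectrum A →
      ∃ q : Polynomial ℕ, A = {n : ℕ | 1 ≤ n ∧ q.eval n ∈ unitIntervalSizes φ₀} := by
  obtain ⟨Θ₀, hΘ₀⟩ := exists_universal_blocks
  obtain ⟨φ₀, s, hs⟩ := exists_unitInterval Θ₀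
  refine ⟨φ₀, fun A hA => ?_⟩
  obtain ⟨q, hq⟩ := hΘ₀ A hA
  by_cases hq0 : q = 0
  · refine ⟨0, ?_⟩
    rw [hq, hq0]
    ext n
    simp only [Polynomial.eval_zero, Set.mem_ofPred_eq]
    constructor
    · rintro ⟨_, h⟩; exact absurd h.1 (by omega)
    · rintro ⟨_, h⟩; exact absurd h.1 (by omega)
  · refine ⟨Polynomial.C s * ((q + Polynomial.C 2) * (q + Polynomial.C 2)), ?_⟩
    rw [hq]
    ext n
    simp only [Set.mem_ofPred_eq, Polynomial.eval_mul, Polynomial.eval_add, Polynomial.eval_C]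
    apply and_congr_right
    intro hn
    exact hs _ (eval_pos hq0 hn)

/-- All spectra of first-order sentences are rudimentary if and only if this is the case for the
numbers of vertices of unit interval graphs satisfying a first-order sentence about adjacency;
moreover there is one sentence `φ₀` such that the spectra are exactly the preimages of
`unitIntervalSizes φ₀` under polynomials with natural coefficients. -/
theorem result :
    ((∀ A : Set ℕ, IsSpectrum A ↔ (IsRudimentary A ∧ 0 ∉ A)) ↔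
      ∀ φ : FirstOrder.Language.graph.Sentence, IsRudimentary (unitIntervalSizes φ)) ∧
    ∃ φ₀ : FirstOrder.Language.graph.Sentence, ∀ A : Set ℕ, IsSpectrum A ↔
      ∃ q : Polynomial ℕ, A = {n : ℕ | 1 ≤ n ∧ q.eval n ∈ unitIntervalSizes φ₀} := by
  obtain ⟨φ₀, hφ₀⟩ := universal
  refine ⟨⟨?_, ?_⟩, φ₀, fun A => ⟨hφ₀ A, ?_⟩⟩
  · intro h φ
    exact ((h _).1 (unitIntervalSizes_isSpectrum φ)).1
  · intro h A
    constructor
    · intro hA
      refine ⟨?_, hA.zero_notMem⟩
      obtain ⟨q, rfl⟩ := hφ₀ A hA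
      exact (h φ₀).preimage q
    · rintro ⟨h1, h2⟩
      exact h1.isSpectrum h2
  · rintro ⟨q, rfl⟩
    exact preimage_isSpectrum (unitIntervalSizes_isSpectrum φ₀) q

end Pool.Agent.Helper20.Old.UnitInterval
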