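import Pool.Agent.Helper20.Spectra.UnivSem
import Pool.Agent.Helper20.Spectra.SqSpec

set_option autoImplicit false

namespace Pool.Agent.Helper20.Old.UniversalBlocks

open Pool.Agent.Helper20.Spectra

/-- There is one finite set `Θ₀` of `2 × 2` blocks such that the first-order spectra are exactly
the preimages of the set `squareSizes Θ₀` under polynomials with natural coefficients; and the
spectra are exactly the rudimentary sets of positive integers if and only if the single set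
`squareSizes Θ₀` is rudimentary. -/
theorem result :
    ∃ Θ₀ : Finset (ℕ × ℕ × ℕ × ℕ),
      (∀ A : Set ℕ, IsSpectrum A ↔
        ∃ q : Polynomial ℕ, A = {n : ℕ | 1 ≤ n ∧ q.eval n ∈ squareSizes Θ₀}) ∧
      ((∀ A : Set ℕ, IsSpectrum A ↔ (IsRudimentary A ∧ 0 ∉ A)) ↔
        IsRudimentary (squareSizes Θ₀)) := by
  obtain ⟨k₀, Θ₀, hΘ₀⟩ := spectrum_blocks univSizes_spectrum
  have h0spec : ∀ A : Set ℕ, IsSpectrum A → 0 ∉ A := by
    rintro A ⟨L, _, _, φ, rfl⟩ h0
    exact absurd h0.1 (by omega)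
  have huniv : ∀ A : Set ℕ, IsSpectrum A →
        ∃ q : Polynomial ℕ, A = {n : ℕ | 1 ≤ n ∧ q.eval n ∈ squareSizes Θ₀} := by
    intro A hA
    obtain ⟨k, Θ, hΘ⟩ := spectrum_blocks hA
    obtain ⟨t, rfl⟩ := exists_blk Θ
    refine ⟨((Polynomial.X ^ (k + 1) + Polynomial.C (2 + t)) ^ 2 + Polynomial.C t) ^ (k₀ + 1), ?_⟩
    ext n
    have hpos : ∀ n ∈ A, 1 ≤ n := by
      obtain ⟨L, _, _, φ, rfl⟩ := hA
      exact fun n hn => hn.1
    have hev : ∀ n : ℕ, (((Polynomial.X ^ (k + 1) + Polynomial.C (2 + t)) ^ 2 +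
        Polynomial.C t) ^ (k₀ + 1) : Polynomial ℕ).eval n =
        ((n ^ (k + 1) + 2 + t) ^ 2 + t) ^ (k₀ + 1) := by
      intro n
      simp [add_assoc]
    simp only [Set.mem_ofPred_eq, hev]
    constructor
    · intro hn
      have h1 := hpos n hn
      refine ⟨h1, ?_⟩
      rw [← hΘ₀ _ (by
        have : 1 ≤ (n ^ (k + 1) + 2 + t) ^ 2 := Nat.one_le_pow _ _ (by omega)
        omega), mem_univSizes, ← hΘ n h1]
      exact hn
    · rintro ⟨h1, h2⟩
      rw [← hΘ₀ _ (by
        have : 1 ≤ (n ^ (k + 1) + 2 + t) ^ 2 := Nat.one_le_pow _ _ (by omega)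
        omega), mem_univSizes, ← hΘ n h1] at h2
      exact h2
  refine ⟨Θ₀, fun A => ⟨huniv A, ?_⟩, ?_, ?_⟩
  · rintro ⟨q, rfl⟩
    exact squareSizes_preimage_isSpectrum Θ₀ q
  · intro h
    exact ((h _).1 (squareSizes_isSpectrum Θ₀)).1
  · intro h A
    constructor
    · intro hA
      refine ⟨?_, h0spec A hA⟩
      obtain ⟨q, rfl⟩ := huniv A hA
      exact h.preimage q
    · rintro ⟨h1, h2⟩
      exact h1.isSpectrum h2

end Pool.Agent.Helper20.Old.UniversalBlocks
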